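import Pool.Agent.Helper98.EQ.Goals
import Mathlib

/-!
# Project EQ (MP_5b9a11_al), packet ORB: orbit sums
-/

set_option autoImplicit false

namespace Pool.Agent.Helper48.EQ.ORB

theorem orb_aux (p : ℕ) [Fact p.Prime] (R Ω : Type) [CommRing R] [Fintype Ω] [DecidableEq Ω]
  (S : Equiv.Perm Ω) (m s : ℕ) (hS : S ^ p ^ m = 1) (f : Ω → R) (hf : ∀ ω, f (S ω) = f ω) :
  (p : R) ^ (s + 1) ∣ ∑ ω ∈ Finset.univ.filter (fun ω => (S ^ p ^ s) ω ≠ ω), f ω := by
  classical
  have hp : p.Prime := Fact.out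
  have hper : ∀ ω, Function.IsPeriodicPt S (p ^ m) ω := by
    intro ω
    show (⇑S)^[p ^ m] ω = ω
    rw [← Equiv.Perm.coe_pow, hS]
    rfl
  have hfz : ∀ (n : ℤ) ω, f ((S ^ n) ω) = f ω := by
    have h1 : ∀ (n : ℕ) ω, f ((S ^ n) ω) = f ω := by
      intro n
      induction n with
      | zero => intro ω; rfl
      | succ n ih => intro ω; rw [pow_succ', Equiv.Perm.mul_apply, hf, ih]
    intro n ω
    obtain ⟨k, rfl | rfl⟩ := n.eq_nat_or_neg
    · rw [zpow_natCast]; exact h1 k ω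
    · have h2 := h1 k ((S ^ (-(k : ℤ))) ω)
      rw [← zpow_natCast, ← Equiv.Perm.mul_apply, ← zpow_add, add_neg_cancel, zpow_zero] at h2
      exact h2.symm
  have hFz : ∀ (n : ℤ) ω, (S ^ p ^ s) ω ≠ ω → (S ^ p ^ s) ((S ^ n) ω) ≠ (S ^ n) ω := by
    intro n ω h h'
    apply h
    have hc : (S ^ p ^ s) ((S ^ n) ω) = (S ^ n) ((S ^ p ^ s) ω) := by
      rw [← Equiv.Perm.mul_apply, ← Equiv.Perm.mul_apply, ← zpow_natCast, ← zpow_add, ← zpow_add,
        add_comm]
    rw [hc] at h'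
    exact (S ^ n).injective h'
  rw [Finset.sum_partition (Equiv.Perm.SameCycle.setoid S)]
  refine Finset.dvd_sum fun xbar hx => ?_
  rw [Finset.mem_image] at hx
  obtain ⟨ω, hω, rfl⟩ := hx
  rw [Finset.mem_filter] at hω
  have hset : (Finset.univ.filter (fun ω => (S ^ p ^ s) ω ≠ ω)).filter
      (fun y => (Quotient.mk (Equiv.Perm.SameCycle.setoid S) y) =
        Quotient.mk (Equiv.Perm.SameCycle.setoid S) ω) =
      (MulAction.orbit (Subgroup.zpowers S) ω).toFinset := by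
    ext y
    rw [Finset.mem_filter, Finset.mem_filter, Set.mem_toFinset]
    constructor
    · rintro ⟨-, h⟩
      obtain ⟨n, hn⟩ := (Quotient.exact h : Equiv.Perm.SameCycle S y ω).symm
      exact ⟨⟨S ^ n, ⟨n, rfl⟩⟩, hn⟩
    · rintro ⟨⟨g, n, rfl⟩, hg⟩
      have hg' : (S ^ n) ω = y := hg
      rw [← hg']
      refine ⟨⟨Finset.mem_univ _, hFz n ω hω.2⟩, ?_⟩
      refine Quotient.sound ?_
      show Equiv.Perm.SameCycle S _ _
      exact Equiv.Perm.SameCycle.symm ⟨n, rfl⟩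
  have hcard : (p ^ (s + 1)) ∣ (MulAction.orbit (Subgroup.zpowers S) ω).toFinset.card := by
    rw [Set.toFinset_card, ← MulAction.minimalPeriod_eq_card]
    have h1 : Function.minimalPeriod (S • ·) ω ∣ p ^ m := (hper ω).minimalPeriod_dvd
    obtain ⟨j, hj, hj'⟩ := (Nat.dvd_prime_pow hp).1 h1
    rw [hj']
    refine pow_dvd_pow _ ?_
    by_contra hlt
    have h2 : Function.minimalPeriod (S • ·) ω ∣ p ^ s := by
      rw [hj']
      exact pow_dvd_pow _ (by omega)
    apply hω.2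
    have h3 : Function.IsPeriodicPt (S • ·) (p ^ s) ω := (Function.isPeriodicPt_iff_minimalPeriod_dvd).2 h2
    rw [Equiv.Perm.coe_pow]
    exact h3
  have hsum : ∑ y ∈ (MulAction.orbit (Subgroup.zpowers S) ω).toFinset, f y =
      ((MulAction.orbit (Subgroup.zpowers S) ω).toFinset.card : R) * f ω := by
    rw [← nsmul_eq_mul, ← Finset.sum_const]
    refine Finset.sum_congr rfl fun y hy => ?_
    rw [Set.mem_toFinset] at hy
    obtain ⟨⟨g, n, rfl⟩, hg⟩ := hy
    have hg' : (S ^ n) ω = y := hg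
    rw [← hg', hfz]
  have hfin : ∑ y ∈ (Finset.univ.filter (fun ω => (S ^ p ^ s) ω ≠ ω)).filter
      (fun y => (Quotient.mk (Equiv.Perm.SameCycle.setoid S) y) =
        Quotient.mk (Equiv.Perm.SameCycle.setoid S) ω), f y =
      ((MulAction.orbit (Subgroup.zpowers S) ω).toFinset.card : R) * f ω := by
    rw [hset, hsum]
  obtain ⟨c, hc⟩ := hcard
  refine Dvd.intro ((c : R) * f ω) ?_
  rw [hc] at hfin
  refine Eq.trans ?_ hfin.symm
  push_cast
  ring

theorem t : Pool.Agent.Helper98.EQ.S_ORB := by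
  intro p hp R Ω _ _ _ S m s hS f hf
  obtain ⟨c, hc⟩ := orb_aux p R Ω S m s hS f hf
  exact ⟨c, hc⟩

end Pool.Agent.Helper48.EQ.ORB
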