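import Pool.Agent.Helper70.EQ.Goals

/-!
# PROJECT EQ, packet MT: the Milnor number in terms of `T`
-/

open Finset

namespace Pool.Agent.Helper48.EQ.MT

open Pool.Agent.Helper70.KN Pool.Agent.Helper70.EQ

theorem t (hVJ : S_VJ) : G_MT := by
  intro N r V hr hrN
  have h1 : (∑ I ∈ Finset.univ.filter (fun I : Finset (Fin N) => r ≤ I.card),
      (-1 : ℝ) ^ (N - I.card) * ((I.card - 1).choose (r - 1) : ℝ) * (I.card.factorial : ℝ) * vol V I) =
      ∑ J : Finset (Fin N), if J.card ≤ N - r then
        (-1 : ℝ) ^ J.card * ((N - J.card - 1).choose (r - 1) : ℝ) * ((N - J.card).factorial : ℝ) * W V J else 0 := by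
    rw [Finset.sum_filter, ← Equiv.sum_comp (Function.Involutive.toPerm (compl : Finset (Fin N) → Finset (Fin N))
      compl_involutive)]
    refine Finset.sum_congr rfl fun J _ => ?_
    have hJ : J.card ≤ N := by
      have := Finset.card_le_univ J
      rwa [Fintype.card_fin] at this
    have e : (Jᶜ).card = N - J.card := by
      rw [Finset.card_compl, Fintype.card_fin]
    show (if r ≤ (Jᶜ).card then
      (-1 : ℝ) ^ (N - (Jᶜ).card) * (((Jᶜ).card - 1).choose (r - 1) : ℝ) * ((Jᶜ).card.factorial : ℝ) * vol V Jᶜ else 0) = _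
    rw [e, hVJ N V J, Nat.sub_sub_self hJ]
    by_cases h : r ≤ N - J.card
    · rw [if_pos h, if_pos (by omega)]
    · rw [if_neg h, if_neg (by omega)]
  unfold milnorCI
  rw [h1, ← Finset.powerset_univ, Finset.sum_powerset, Finset.card_univ, Fintype.card_fin]
  congr 1
  have hsub : Finset.range (N - r + 1) ⊆ Finset.range (N + 1) := by
    intro k hk
    rw [Finset.mem_range] at hk ⊢
    omega
  rw [← Finset.sum_subset hsub]
  · refine Finset.sum_congr rfl fun k hk => ?_
    rw [Finset.mem_range] at hk
    unfold T X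
    rw [← mul_assoc, Finset.mul_sum]
    refine Finset.sum_congr rfl fun J hJ => ?_
    rw [(Finset.mem_powersetCard.1 hJ).2, if_pos (by omega)]
  · intro k _ hk2
    rw [Finset.mem_range] at hk2
    refine Finset.sum_eq_zero fun J hJ => ?_
    rw [(Finset.mem_powersetCard.1 hJ).2, if_neg (by omega)]

end Pool.Agent.Helper48.EQ.MT
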